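import Pool.Agent.Run7.h757.BP.Stm
import Pool.Agent.N792.ShpA
import Pool.Agent.N792.FlP
import Pool.Agent.N792.Mtm
import Pool.Agent.N792.Rav
import Pool.Agent.Y672.GM.Equi

/-!
# The second moment of the truncated singular series (piece BP-SQ)
-/

set_option autoImplicit false

namespace Run7.h136.BP

open Finset Filter Topology Run7.h757.BP
open Pool.Agent.N792

theorem fv_add (p a : ℕ) (r : ℕ) : fv 1 0 ((a + p : ℕ) : ℤ) r = fv 1 0 (a : ℤ) r + p := by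
  simp only [fv]
  push_cast
  ring

theorem rho_per (p : ℕ) : Function.Periodic (fun a : ℕ => rho 1 0 (a : ℤ) p) p := by
  intro a
  simp only [rho]
  congr 1
  refine filter_congr fun r _ => ?_
  rw [fv_add]
  exact dvd_add_self_right

theorem rho_sum_ge (p : ℕ) (hp : p.Prime) : (p : ℝ) ≤ ∑ a ∈ range p, (rho 1 0 (a : ℤ) p : ℝ) := by
  classical
  have h1 : ∑ a ∈ range p, rho 1 0 (a : ℤ) p =
      ∑ r ∈ range p, #((range p).filter (fun a : ℕ => (p : ℤ) ∣ fv 1 0 (a : ℤ) r)) := by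
    simp only [rho, card_filter]
    rw [sum_comm]
  have h2 : ∀ r ∈ range p, 1 ≤ #((range p).filter (fun a : ℕ => (p : ℤ) ∣ fv 1 0 (a : ℤ) r)) := by
    intro r _
    rw [Nat.one_le_iff_ne_zero, ← Nat.pos_iff_ne_zero, card_pos]
    refine ⟨((-(r : ℤ) ^ 2) % p).toNat, ?_⟩
    have hp0 : (0 : ℤ) < p := by exact_mod_cast hp.pos
    have h3 := Int.emod_nonneg (-(r : ℤ) ^ 2) hp0.ne'
    have h4 := Int.emod_lt_of_pos (-(r : ℤ) ^ 2) hp0
    rw [mem_filter, mem_range]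
    refine ⟨by omega, ?_⟩
    rw [Int.toNat_of_nonneg h3]
    have h5 := Int.emod_add_mul_ediv (-(r : ℤ) ^ 2) p
    refine ⟨-(-(r : ℤ) ^ 2 / p), ?_⟩
    simp only [fv]
    linear_combination h5
  have h3 : p ≤ ∑ a ∈ range p, rho 1 0 (a : ℤ) p := by
    rw [h1]
    calc p = ∑ _r ∈ range p, 1 := by simp
      _ ≤ _ := sum_le_sum h2
  exact_mod_cast h3

theorem local_bound (p : ℕ) (hp : p.Prime) :
    ∑ a ∈ range p, ((1 - (rho 1 0 (a : ℤ) p : ℝ) / p) / (1 - 1 / (p : ℝ))) ^ 2 ≤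
      p * (1 + 4 / (p : ℝ) ^ 2) := by
  have hp2 : (2 : ℝ) ≤ p := by exact_mod_cast hp.two_le
  have hp0 : (0 : ℝ) < p := by linarith
  have hS := rho_sum_ge p hp
  have h1 : ∀ a ∈ range p, (1 - (rho 1 0 (a : ℤ) p : ℝ) / p) ^ 2 ≤
      1 - (rho 1 0 (a : ℤ) p : ℝ) * (2 / p - 2 / p ^ 2) := by
    intro a _
    have h2 : (rho 1 0 (a : ℤ) p : ℝ) ≤ 2 := by
      have : rho 1 0 (a : ℤ) p ≤ 2 := rho_le_two 1 0 a p hp (by
        intro h
        have := Int.le_of_dvd one_pos h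
        have := hp.two_le
        omega)
      exact_mod_cast this
    have h3 : (0 : ℝ) ≤ rho 1 0 (a : ℤ) p := Nat.cast_nonneg _
    have h4 : (rho 1 0 (a : ℤ) p : ℝ) ^ 2 ≤ 2 * rho 1 0 (a : ℤ) p := by nlinarith
    have h5 : (rho 1 0 (a : ℤ) p : ℝ) ^ 2 / p ^ 2 ≤ 2 * rho 1 0 (a : ℤ) p / p ^ 2 := by gcongr
    calc (1 - (rho 1 0 (a : ℤ) p : ℝ) / p) ^ 2 =
          1 - 2 * (rho 1 0 (a : ℤ) p : ℝ) / p + (rho 1 0 (a : ℤ) p : ℝ) ^ 2 / p ^ 2 := by ring
      _ ≤ 1 - 2 * (rho 1 0 (a : ℤ) p : ℝ) / p + 2 * rho 1 0 (a : ℤ) p / p ^ 2 := by linarith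
      _ = _ := by ring
  have h2 : ∑ a ∈ range p, (1 - (rho 1 0 (a : ℤ) p : ℝ) / p) ^ 2 ≤ (p : ℝ) - 2 + 2 / p := by
    refine (sum_le_sum h1).trans ?_
    rw [sum_sub_distrib, ← sum_mul, sum_const, card_range, nsmul_eq_mul, mul_one]
    have h3 : 0 ≤ 2 / (p : ℝ) - 2 / p ^ 2 := by
      rw [sub_nonneg, div_le_div_iff₀ (by positivity) hp0]
      nlinarith
    have h4 : (p : ℝ) * (2 / (p : ℝ) - 2 / p ^ 2) = 2 - 2 / p := by
      field_simp
    have h5 := mul_le_mul_of_nonneg_right hS h3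
    rw [h4] at h5
    linarith
  have h3 : ∑ a ∈ range p, ((1 - (rho 1 0 (a : ℤ) p : ℝ) / p) / (1 - 1 / (p : ℝ))) ^ 2 =
      (∑ a ∈ range p, (1 - (rho 1 0 (a : ℤ) p : ℝ) / p) ^ 2) / (1 - 1 / (p : ℝ)) ^ 2 := by
    rw [sum_div]
    refine sum_congr rfl fun a _ => ?_
    rw [div_pow]
  rw [h3]
  have h4 : 0 < 1 - 1 / (p : ℝ) := by
    have : 1 / (p : ℝ) ≤ 1 / 2 := one_div_le_one_div_of_le (by norm_num) hp2
    linarith
  rw [div_le_iff₀ (by positivity)]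
  refine h2.trans ?_
  have h5 : (p : ℝ) * (1 + 4 / (p : ℝ) ^ 2) * (1 - 1 / (p : ℝ)) ^ 2 =
      (p ^ 2 + 4) * (p - 1) ^ 2 / p ^ 3 := by
    field_simp
  have h6 : (p : ℝ) - 2 + 2 / p = (p ^ 2 - 2 * p + 2) * p ^ 2 / p ^ 3 := by
    field_simp
  rw [h5, h6]
  refine div_le_div_of_nonneg_right ?_ (by positivity)
  have h7 : 0 ≤ (3 * (p : ℝ) - 2) * (p - 2) := mul_nonneg (by linarith) (by linarith)
  linarith

/-- the Chinese remainder theorem for products over primes -/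
theorem crt_prod (F : ℕ → ℕ → ℝ) (hF : ∀ p, Function.Periodic (F p) p) (S : Finset ℕ)
    (hS : ∀ p ∈ S, p.Prime) :
    ∑ n ∈ range (∏ p ∈ S, p), ∏ p ∈ S, F p n = ∏ p ∈ S, ∑ n ∈ range p, F p n := by
  classical
  induction S using Finset.induction_on with
  | empty => simp
  | insert q S hq ih =>
    have hS' : ∀ p ∈ S, p.Prime := fun p hp => hS p (mem_insert_of_mem hp)
    have hqp : q.Prime := hS q (mem_insert_self _ _)
    rw [prod_insert hq, prod_insert hq, ← ih hS']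
    simp only [prod_insert hq]
    have hper : Function.Periodic (fun n => ∏ p ∈ S, F p n) (∏ p ∈ S, p) := by
      intro n
      refine prod_congr rfl fun p hp => ?_
      obtain ⟨k, hk⟩ := dvd_prod_of_mem (fun p => p) hp
      have h1 : Function.Periodic (F p) (k * p) := (hF p).nat_mul k
      rw [hk, mul_comm]
      exact h1 n
    refine Pool.Agent.Y672.GM.sum_crt q (∏ p ∈ S, p) hqp.pos
      (prod_pos fun p hp => (hS' p hp).pos) ?_ _ _ (hF q) hper
    rw [Nat.coprime_prod_right_iff]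
    intro p hp
    rw [Nat.coprime_primes hqp (hS' p hp)]
    rintro rfl
    exact hq hp

/-- the sum over a period -/
theorem period_bound (w : ℕ) :
    ∑ a ∈ range (∏ p ∈ (Icc 1 w).filter Nat.Prime, p), (Vc 1 0 (a : ℤ) w / V1 w) ^ 2 ≤
      (∏ p ∈ (Icc 1 w).filter Nat.Prime, p : ℕ) * Real.exp 8 := by
  set S := (Icc 1 w).filter Nat.Prime with hS
  have hSp : ∀ p ∈ S, p.Prime := fun p hp => (mem_filter.1 hp).2
  have h1 : ∀ a : ℕ, (Vc 1 0 (a : ℤ) w / V1 w) ^ 2 =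
      ∏ p ∈ S, ((1 - (rho 1 0 (a : ℤ) p : ℝ) / p) / (1 - 1 / (p : ℝ))) ^ 2 := by
    intro a
    rw [Vc, V1, ← prod_div_distrib, ← prod_pow]
  simp only [h1]
  rw [crt_prod (fun p n => ((1 - (rho 1 0 (n : ℤ) p : ℝ) / p) / (1 - 1 / (p : ℝ))) ^ 2)
    (fun p n => by
      have := rho_per p n
      simp only at this ⊢
      rw [this]) S hSp]
  have h2 : ∏ p ∈ S, ∑ n ∈ range p, ((1 - (rho 1 0 (n : ℤ) p : ℝ) / p) / (1 - 1 / (p : ℝ))) ^ 2 ≤
      ∏ p ∈ S, ((p : ℝ) * (1 + 4 / (p : ℝ) ^ 2)) :=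
    prod_le_prod (fun p _ => sum_nonneg fun n _ => sq_nonneg _) fun p hp => local_bound p (hSp p hp)
  refine h2.trans ?_
  rw [prod_mul_distrib]
  push_cast
  refine mul_le_mul_of_nonneg_left ?_ (prod_nonneg fun p _ => Nat.cast_nonneg _)
  have h3 : ∏ p ∈ S, (1 + 4 / (p : ℝ) ^ 2) ≤ Real.exp (∑ p ∈ S, 4 / (p : ℝ) ^ 2) := by
    rw [Real.exp_sum]
    refine prod_le_prod (fun p _ => by positivity) fun p _ => ?_
    have := Real.add_one_le_exp (4 / (p : ℝ) ^ 2)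
    linarith
  refine h3.trans (Real.exp_le_exp.2 ?_)
  have h4 : ∑ p ∈ S, 4 / (p : ℝ) ^ 2 ≤ ∑ p ∈ Ioo 0 (w + 1), 4 / (p : ℝ) ^ 2 := by
    refine sum_le_sum_of_subset_of_nonneg (fun p hp => ?_) fun _ _ _ => by positivity
    rw [hS, mem_filter, mem_Icc] at hp
    rw [mem_Ioo]
    omega
  refine h4.trans ?_
  have h5 := sum_Ioo_inv_sq_le (α := ℝ) 0 (w + 1)
  have h6 : ∑ p ∈ Ioo 0 (w + 1), 4 / (p : ℝ) ^ 2 = 4 * ∑ p ∈ Ioo 0 (w + 1), ((p : ℝ) ^ 2)⁻¹ := by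
    rw [mul_sum]
    rfl
  rw [h6]
  norm_num at h5
  linarith

theorem Vc_anti (c : ℤ) {w z : ℕ} (h : w ≤ z) : Vc 1 0 c z ≤ Vc 1 0 c w := by
  have hsub : (Icc 1 w).filter Nat.Prime ⊆ (Icc 1 z).filter Nat.Prime := by
    intro p hp
    rw [mem_filter, mem_Icc] at hp ⊢
    exact ⟨⟨hp.1.1, hp.1.2.trans h⟩, hp.2⟩
  have hf : ∀ p : ℕ, p.Prime → 0 ≤ 1 - (rho 1 0 c p : ℝ) / p ∧ 1 - (rho 1 0 c p : ℝ) / p ≤ 1 := by
    intro p hp
    have hp0 : (0 : ℝ) < p := by exact_mod_cast hp.pos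
    have h1 : (rho 1 0 c p : ℝ) ≤ p := by
      have : rho 1 0 c p ≤ p := by
        unfold rho
        exact (card_filter_le _ _).trans (by rw [card_range])
      exact_mod_cast this
    constructor
    · rw [sub_nonneg, div_le_one hp0]
      exact h1
    · have : 0 ≤ (rho 1 0 c p : ℝ) / p := by positivity
      linarith
  rw [Vc, Vc, ← prod_sdiff hsub]
  have h1 : ∏ p ∈ (Icc 1 z).filter Nat.Prime \ (Icc 1 w).filter Nat.Prime,
      (1 - (rho 1 0 c p : ℝ) / p) ≤ 1 :=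
    prod_le_one (fun p hp => (hf p (mem_filter.1 (mem_sdiff.1 hp).1).2).1)
      fun p hp => (hf p (mem_filter.1 (mem_sdiff.1 hp).1).2).2
  have h2 : 0 ≤ ∏ p ∈ (Icc 1 w).filter Nat.Prime, (1 - (rho 1 0 c p : ℝ) / p) :=
    prod_nonneg fun p hp => (hf p (mem_filter.1 hp).2).1
  nlinarith

theorem sum_Icc_le (g : ℕ → ℝ) (hg : ∀ a, 0 ≤ g a) (W A : ℕ) (hW : 0 < W) (hWA : W ≤ A)
    (hper : Function.Periodic g W) :
    ∑ a ∈ Icc 1 A, g a ≤ 2 * A / W * ∑ a ∈ range W, g a := by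
  have hmul : ∀ k : ℕ, ∑ a ∈ range (k * W), g a = k * ∑ a ∈ range W, g a := by
    intro k
    induction k with
    | zero => simp
    | succ k ih =>
      rw [add_mul, one_mul, sum_range_add, ih]
      have : ∑ x ∈ range W, g (k * W + x) = ∑ x ∈ range W, g x := by
        refine sum_congr rfl fun x _ => ?_
        rw [add_comm]
        have := (hper.nat_mul k) x
        exact this
      rw [this]
      push_cast
      ring
  have h1 : Icc 1 A ⊆ range ((A / W + 1) * W) := by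
    intro a ha
    rw [mem_Icc] at ha
    rw [mem_range]
    have := Nat.lt_div_mul_add hW (a := A)
    rw [add_mul, one_mul]
    omega
  refine (sum_le_sum_of_subset_of_nonneg h1 fun a _ _ => hg a).trans ?_
  rw [hmul]
  refine mul_le_mul_of_nonneg_right ?_ (sum_nonneg fun a _ => hg a)
  have hW0 : (0 : ℝ) < W := by exact_mod_cast hW
  have h2 : ((A / W : ℕ) : ℝ) ≤ A / W := Nat.cast_div_le
  have h3 : (1 : ℝ) ≤ A / W := by
    rw [le_div_iff₀ hW0, one_mul]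
    exact_mod_cast hWA
  push_cast
  have h4 : 2 * (A : ℝ) / W = A / W + A / W := by ring
  rw [h4]
  linarith

theorem sq : S_SQ := by
  intro E
  obtain ⟨c, hc, hlow⟩ := Shp.V1_lower
  have hlim : Tendsto (fun N : ℕ => Real.log (N : ℝ)) atTop atTop :=
    Real.tendsto_log_atTop.comp (tendsto_natCast_atTop_atTop (R := ℝ))
  obtain ⟨N₀, hN₀⟩ := eventually_atTop.1 (hlim.eventually_ge_atTop 1000)
  set K : ℝ := 1 + 2 * E / c with hK
  have hK1 : 1 ≤ K := by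
    rw [hK]
    have : 0 ≤ 2 * (E : ℝ) / c := by positivity
    linarith
  refine ⟨K ^ 2 * (2 * Real.exp 8), ?_, N₀ + 1, ?_⟩
  · have h1 : (1 : ℝ) ≤ Real.exp 8 := Real.one_le_exp (by norm_num)
    have h2 : (1 : ℝ) ≤ K ^ 2 := one_le_pow₀ hK1
    nlinarith
  intro N hN A Jw hA1 hA2 hw
  have hL := hN₀ N (by omega)
  set L := Real.log (N : ℝ) with hLd
  have hN0 : (0 : ℝ) < N := by exact_mod_cast (by omega : 0 < N)
  set w := 2 ^ 2 ^ Jw with hwd
  have hw2 : 2 ≤ w := by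
    rw [hwd]
    calc 2 = 2 ^ 1 := rfl
      _ ≤ 2 ^ 2 ^ Jw := Nat.pow_le_pow_right (by norm_num) Nat.one_le_two_pow
  set T := ⌊L / 8⌋₊ with hT
  have hT1 : (T : ℝ) ≤ L / 8 := Nat.floor_le (by linarith)
  have hT2 : L / 8 - 1 < T := Nat.sub_one_lt_floor _
  have hT3 : 100 ≤ T := by
    have : (100 : ℝ) < T := by linarith
    exact_mod_cast this.le
  -- the ratio of the Mertens products
  obtain ⟨w0, hw0, hw0T, hw0w, hR⟩ : ∃ w0 : ℕ, 2 ≤ w0 ∧ w0 ≤ T ∧ w0 ≤ w ∧ V1 w0 ≤ K * V1 w := by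
    rcases le_or_gt w T with h | h
    · refine ⟨w, hw2, h, le_rfl, ?_⟩
      have := Mtm.V1_pos' w
      nlinarith
    · refine ⟨T, by omega, le_rfl, h.le, ?_⟩
      have h1 := V1_le T (by omega)
      have h2 := hlow w (by omega)
      have hlT : 0 < Real.log T := Real.log_pos (by exact_mod_cast (by omega : 1 < T))
      have hlw : 0 < Real.log w := Real.log_pos (by exact_mod_cast (by omega : 1 < w))
      have h3 : Real.log w ≤ E * Real.log L := by
        have h4 := Real.log_le_log (by exact_mod_cast (by omega : 0 < w)) hw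
        rw [Real.log_pow] at h4
        exact h4
      have h4 : Real.log L ≤ 2 * Real.log T := by
        have h5 : L ≤ (T : ℝ) ^ 2 := by nlinarith
        have h6 := Real.log_le_log (by linarith) h5
        rw [Real.log_pow] at h6
        exact_mod_cast h6
      have h5 : 1 / Real.log T ≤ K * (c / Real.log w) := by
        rw [div_le_iff₀ hlT]
        have h6 : K * (c / Real.log w) * Real.log T = K * c * Real.log T / Real.log w := by ring
        rw [h6, le_div_iff₀ hlw, one_mul]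
        have h7 : K * c = c + 2 * E := by
          rw [hK]
          field_simp
        rw [h7]
        have h8 : (E : ℝ) * Real.log L ≤ E * (2 * Real.log T) := by gcongr
        have h9 : 0 ≤ c * Real.log T := by positivity
        linarith
      have h6 : K * (c / Real.log w) ≤ K * V1 w := mul_le_mul_of_nonneg_left h2 (by linarith)
      linarith
  -- the pointwise comparison
  have hV0 : 0 < V1 w0 := Mtm.V1_pos' w0
  have hVw : 0 < V1 w := Mtm.V1_pos' w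
  have hpt : ∀ a : ℕ, (Vc 1 0 (a : ℤ) w / V1 w) ^ 2 ≤ K ^ 2 * (Vc 1 0 (a : ℤ) w0 / V1 w0) ^ 2 := by
    intro a
    rw [← mul_pow]
    refine pow_le_pow_left₀ (div_nonneg (Mtm.Vc_bd 1 0 a w).1 hVw.le) ?_ 2
    have h1 := Vc_anti (a : ℤ) hw0w
    have h2 : K * (Vc 1 0 (a : ℤ) w0 / V1 w0) = Vc 1 0 (a : ℤ) w0 * (K / V1 w0) := by ring
    rw [h2, div_eq_mul_one_div]
    refine mul_le_mul h1 ?_ (by positivity) (Mtm.Vc_bd 1 0 a w0).1
    rw [div_le_div_iff₀ hVw hV0, one_mul]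
    exact hR
  set W := ∏ p ∈ (Icc 1 w0).filter Nat.Prime, p with hW
  have hW0 : 0 < W := prod_pos fun p hp => (mem_filter.1 hp).2.pos
  have hW4 : W ≤ 4 ^ w0 := by
    have h1 := primorial_le_four_pow w0
    refine le_trans (le_of_eq ?_) h1
    rw [hW, primorial]
    refine prod_congr ?_ fun _ _ => rfl
    ext p
    rw [mem_filter, mem_filter, mem_Icc, mem_range]
    constructor
    · rintro ⟨⟨_, h⟩, hp⟩
      exact ⟨by omega, hp⟩
    · rintro ⟨h, hp⟩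
      exact ⟨⟨hp.one_le, by omega⟩, hp⟩
  have hWA : W ≤ A := by
    have h1 : ((4 ^ w0 : ℕ) : ℝ) ≤ A := by
      refine le_trans ?_ hA1
      push_cast
      have h2 : (4 : ℝ) ^ w0 = Real.exp (w0 * Real.log 4) := by
        rw [mul_comm, Real.exp_mul, Real.exp_log (by norm_num), Real.rpow_natCast]
      rw [h2, Real.rpow_def_of_pos hN0, ← hLd]
      refine Real.exp_le_exp.2 ?_
      have h3 : Real.log 4 ≤ 2 := by
        have : Real.log 4 = 2 * Real.log 2 := by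
          rw [show (4 : ℝ) = 2 ^ 2 by norm_num, Real.log_pow]
          norm_num
        have := Real.log_two_lt_d9
        linarith
      have h4 : (w0 : ℝ) ≤ L / 8 := le_trans (by exact_mod_cast hw0T) hT1
      have h5 : 0 ≤ Real.log 4 := Real.log_nonneg (by norm_num)
      calc (w0 : ℝ) * Real.log 4 ≤ L / 8 * 2 := by gcongr
        _ ≤ L * (1 / 2) := by linarith
    exact_mod_cast (le_trans (by exact_mod_cast hW4 : (W : ℝ) ≤ ((4 ^ w0 : ℕ) : ℝ)) h1)
  have hper : Function.Periodic (fun a : ℕ => (Vc 1 0 (a : ℤ) w0 / V1 w0) ^ 2) W := by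
    intro a
    have : Vc 1 0 ((a + W : ℕ) : ℤ) w0 = Vc 1 0 (a : ℤ) w0 := by
      rw [Vc, Vc]
      refine prod_congr rfl fun p hp => ?_
      obtain ⟨k, hk⟩ := dvd_prod_of_mem (fun p => p) hp
      have h1 : rho 1 0 ((a + k * p : ℕ) : ℤ) p = rho 1 0 (a : ℤ) p := ((rho_per p).nat_mul k) a
      have h2 : a + W = a + k * p := by rw [hW, hk, mul_comm]
      rw [h2, h1]
    simp only
    rw [this]
  have h1 := sum_Icc_le _ (fun a => sq_nonneg _) W A hW0 hWA hper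
  have h2 := period_bound w0
  rw [← hW] at h2
  have hWr : (0 : ℝ) < W := by exact_mod_cast hW0
  calc ∑ a ∈ Icc 1 A, (Vc 1 0 (a : ℤ) w / V1 w) ^ 2
      ≤ ∑ a ∈ Icc 1 A, K ^ 2 * (Vc 1 0 (a : ℤ) w0 / V1 w0) ^ 2 := sum_le_sum fun a _ => hpt a
    _ = K ^ 2 * ∑ a ∈ Icc 1 A, (Vc 1 0 (a : ℤ) w0 / V1 w0) ^ 2 := by rw [mul_sum]
    _ ≤ K ^ 2 * (2 * A / W * ∑ a ∈ range W, (Vc 1 0 (a : ℤ) w0 / V1 w0) ^ 2) := by gcongr
    _ ≤ K ^ 2 * (2 * A / W * (W * Real.exp 8)) := by gcongr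
    _ = K ^ 2 * (2 * Real.exp 8) * A := by
      field_simp

end Run7.h136.BP
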