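import Pool.Agent.Run7.h757.BP.Stm
import Pool.Agent.N792.RX8

/-!
# The mean of the truncated singular series is at most `1 + η` (piece BP-AV)
-/

set_option autoImplicit false

namespace Run7.h136.BP

open Finset Filter Topology Run7.h757.BP
open Pool.Agent.N792

theorem av_core (E : ℕ) (η : ℝ) (hη : 0 < η) (hη1 : η ≤ 1) : ∃ x0 : ℕ, ∀ x : ℕ, x0 ≤ x → ∀ C Jw : ℕ,
    (x : ℝ) ^ (1 / 2 : ℝ) ≤ C → C ≤ x → ((2 ^ 2 ^ Jw : ℕ) : ℝ) ≤ Real.log x ^ E →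
    ∑ c ∈ Icc 1 C, Vc 1 0 (c : ℕ) (2 ^ 2 ^ Jw) / V1 (2 ^ 2 ^ Jw) ≤ (1 + η) * C := by
  classical
  obtain ⟨C1, hC1, H1⟩ := fl_poly 1 one_pos 0
  obtain ⟨C2, hC2, H2⟩ := fl_lin
  obtain ⟨x1, hx1⟩ := Mtm.err_small C1 E 1 (show (0 : ℝ) < 1 / 10 by norm_num)
  obtain ⟨x2, hx2⟩ := Mtm.err_small C2 E 1 (show (0 : ℝ) < 1 / 10 by norm_num)
  obtain ⟨x3, hx3⟩ := eventually_atTop.1 (Shp.inv_V1_le E)
  have hlim : Tendsto (fun N : ℕ => Real.log (N : ℝ)) atTop atTop :=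
    Real.tendsto_log_atTop.comp (tendsto_natCast_atTop_atTop (R := ℝ))
  have hlim2 : Tendsto (fun N : ℕ => (N : ℝ) ^ (4 / 10 : ℝ)) atTop atTop :=
    (tendsto_rpow_atTop (by norm_num)).comp (tendsto_natCast_atTop_atTop (R := ℝ))
  obtain ⟨x4, hx4⟩ := eventually_atTop.1 ((hlim.eventually_ge_atTop (10 / η)).and
    (hlim2.eventually_ge_atTop (10 / η)))
  refine ⟨x1 + x2 + x3 + x4 + 10, fun x hx C Jw hxC hCx hw => ?_⟩
  obtain ⟨w, hwd⟩ : ∃ w : ℕ, w = 2 ^ 2 ^ Jw := ⟨_, rfl⟩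
  have hV := hx3 x (by omega) _ hw
  obtain ⟨hlog, hpow⟩ := hx4 x (by omega)
  obtain ⟨b1, hb1⟩ : ∃ b1 : ℕ, b1 = C1 + Nat.clog 2 ⌈Real.log x ^ 1⌉₊ := ⟨_, rfl⟩
  obtain ⟨b2, hb2⟩ : ∃ b2 : ℕ, b2 = C2 + Nat.clog 2 ⌈Real.log x ^ 1⌉₊ := ⟨_, rfl⟩
  obtain ⟨e1, f1⟩ := hx1 x (by omega) Jw b1 hw hb1
  obtain ⟨e2, f2⟩ := hx2 x (by omega) Jw b2 hw hb2
  obtain ⟨E1, hE1⟩ : ∃ E1 : ℝ, E1 = C1 * (Jw + 2) * (2 ^ 2 ^ Jw) ^ (C1 * b1) := ⟨_, rfl⟩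
  obtain ⟨E2, hE2⟩ : ∃ E2 : ℝ, E2 = C2 * (Jw + 2) * (2 ^ 2 ^ Jw) ^ (C2 * b2) := ⟨_, rfl⟩
  rw [← hE1, pow_one] at e1
  rw [← hE2, pow_one] at e2
  rw [pow_one] at f1 f2
  have hxR : (10 : ℝ) ≤ x := by exact_mod_cast (by omega : 10 ≤ x)
  have hx0 : (0 : ℝ) < x := by linarith
  have hL : 0 < Real.log x := Real.log_pos (by linarith)
  have hVp : 0 < V1 w := Mtm.V1_pos' w
  have hV1 : 1 ≤ V1 w * Real.log x := by
    rw [← hwd, div_le_iff₀ hVp] at hV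
    linarith
  have hE1n : 0 ≤ E1 := by rw [hE1]; positivity
  have hE2n : 0 ≤ E2 := by rw [hE2]; positivity
  obtain ⟨ε, hε⟩ : ∃ ε : ℝ, ε = η / 10 := ⟨_, rfl⟩
  have hε0 : 0 < ε := by rw [hε]; positivity
  have hεlog : 1 / Real.log x ≤ ε := by
    rw [div_le_iff₀ hL, hε]
    rw [div_le_iff₀ hη] at hlog
    linarith
  have g1 : (1 / 2 : ℝ) ^ b1 ≤ ε := by
    refine le_trans ?_ hεlog
    rw [le_div_iff₀ hL]
    exact f1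
  have g2 : (1 / 2 : ℝ) ^ b2 ≤ ε := by
    refine le_trans ?_ hεlog
    rw [le_div_iff₀ hL]
    exact f2
  -- E1, E2 ≤ x^(1/10) V1 w
  have hx10 : (0 : ℝ) < (x : ℝ) ^ (1 / 10 : ℝ) := Real.rpow_pos_of_pos hx0 _
  have q1 : E1 ≤ (x : ℝ) ^ (1 / 10 : ℝ) * V1 w := by
    calc E1 = E1 * 1 := (mul_one _).symm
      _ ≤ E1 * (V1 w * Real.log x) := by gcongr
      _ = (E1 * Real.log x) * V1 w := by ring
      _ ≤ _ := by gcongr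
  have q2 : E2 ≤ (x : ℝ) ^ (1 / 10 : ℝ) * V1 w := by
    calc E2 = E2 * 1 := (mul_one _).symm
      _ ≤ E2 * (V1 w * Real.log x) := by gcongr
      _ = (E2 * Real.log x) * V1 w := by ring
      _ ≤ _ := by gcongr
  have q3 : (x : ℝ) ^ (1 / 10 : ℝ) ≤ ε * C := by
    have h1 : (x : ℝ) ^ (1 / 10 : ℝ) * (x : ℝ) ^ (4 / 10 : ℝ) = (x : ℝ) ^ (1 / 2 : ℝ) := by
      rw [← Real.rpow_add hx0]
      norm_num
    have h2 : (x : ℝ) ^ (1 / 10 : ℝ) * (10 / η) ≤ (C : ℝ) := by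
      refine le_trans ?_ hxC
      rw [← h1]
      gcongr
    rw [hε]
    have h3 : (x : ℝ) ^ (1 / 10 : ℝ) = (x : ℝ) ^ (1 / 10 : ℝ) * (10 / η) * (η / 10) := by
      field_simp
    rw [h3, mul_comm (η / 10) (C : ℝ)]
    exact mul_le_mul_of_nonneg_right h2 (by positivity)
  have hC0 : (0 : ℝ) < C := lt_of_lt_of_le (Real.rpow_pos_of_pos hx0 _) hxC
  have q4 : (C : ℝ) ≤ x := by exact_mod_cast hCx
  -- each c
  have k1 : ∀ c ∈ Icc 1 C, (1 - ε) * ((x : ℝ) * Vc 1 0 (c : ℕ) w) ≤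
      (#((Ioc (0 : ℤ).natAbs x).filter (fun n : ℕ => Rough w (fv 1 0 (c : ℕ) n).natAbs)) : ℝ) + E1 := by
    intro c _
    have h := H1 b1 (by omega) Jw 1 0 x (c : ℕ) le_rfl
      ⟨one_ne_zero, fun p hp hp1 => absurd (Nat.dvd_one.1 hp1) hp.one_lt.ne'⟩ (by omega)
    rw [rho_one_eq, Nat.cast_one, Nat.cast_one, div_one, one_mul, one_mul, ← hE1, ← hwd] at h
    simp only [Nat.cast_zero, sub_zero, one_dvd, true_and] at h
    rw [Int.natAbs_zero]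
    have h3 : 0 ≤ (x : ℝ) * Vc 1 0 (c : ℕ) w :=
      mul_nonneg hx0.le (Mtm.Vc_bd 1 0 (c : ℕ) w).1
    have h4 := (abs_le.1 h).1
    have h5 : (1 / 2 : ℝ) ^ b1 * ((x : ℝ) * Vc 1 0 (c : ℕ) w) ≤
        ε * ((x : ℝ) * Vc 1 0 (c : ℕ) w) := by gcongr
    linarith
  have k2 : ∀ n ∈ Ioc (0 : ℤ).natAbs x, (#((Ioc (Fn 1 0 n) (Fn 1 0 n + C)).filter (fun k => Rough w k)) : ℝ) ≤
      (1 + ε) * (C * V1 w) + E2 := by
    intro n _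
    have h := H2 b2 (by omega) Jw 1 0 (Fn 1 0 n) (Fn 1 0 n + C) le_rfl (by simp) (by omega)
    rw [Nat.cast_one, div_one, V1q_one, ← hE2, ← hwd] at h
    have h1 : ((Ioc (Fn 1 0 n) (Fn 1 0 n + C)).filter (fun k => k ≡ 0 [MOD 1] ∧ Rough w k)) =
        (Ioc (Fn 1 0 n) (Fn 1 0 n + C)).filter (fun k => Rough w k) := by
      refine filter_congr fun k _ => ?_
      simp [Nat.modEq_one]
    rw [h1] at h
    push_cast at h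
    rw [show ((Fn 1 0 n : ℝ) + C - Fn 1 0 n) = C by ring] at h
    have h3 := (abs_le.1 h).2
    have h4 : (1 / 2 : ℝ) ^ b2 * ((C : ℝ) * V1 w) ≤ ε * ((C : ℝ) * V1 w) := by gcongr
    linarith
  have k3 : (1 - ε) * ((x : ℝ) * ∑ c ∈ Icc 1 C, Vc 1 0 (c : ℕ) w) ≤
      x * ((1 + ε) * (C * V1 w) + E2) + C * E1 := by
    rw [mul_sum, mul_sum]
    refine (sum_le_sum k1).trans ?_
    rw [sum_add_distrib, rough_swap one_pos, sum_const, Nat.card_Icc, nsmul_eq_mul]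
    have h1 : ∑ n ∈ Ioc (0 : ℤ).natAbs x, (#((Ioc (Fn 1 0 n) (Fn 1 0 n + C)).filter (fun k => Rough w k)) : ℝ) ≤
        x * ((1 + ε) * (C * V1 w) + E2) := by
      refine (sum_le_card_nsmul _ _ _ k2).trans ?_
      rw [nsmul_eq_mul, Nat.card_Ioc]
      have : ((x - (0 : ℤ).natAbs : ℕ) : ℝ) ≤ x := by exact_mod_cast Nat.sub_le _ _
      gcongr
    have h2 : ((C + 1 - 1 : ℕ) : ℝ) = C := by norm_num
    rw [h2]
    linarith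
  rw [← hwd, ← sum_div, div_le_iff₀ hVp]
  obtain ⟨S, hS⟩ : ∃ S : ℝ, S = ∑ c ∈ Icc 1 C, Vc 1 0 (c : ℕ) w := ⟨_, rfl⟩
  rw [← hS] at k3 ⊢
  have k4 : 0 ≤ S := by
    rw [hS]
    exact sum_nonneg fun c _ => (Mtm.Vc_bd 1 0 (c : ℕ) w).1
  have r1 : E2 ≤ ε * (C * V1 w) := by
    refine q2.trans ?_
    rw [← mul_assoc]
    gcongr
  have r2 : (C : ℝ) * E1 ≤ x * (ε * (C * V1 w)) := by
    calc (C : ℝ) * E1 ≤ x * E1 := by gcongr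
      _ ≤ x * ((x : ℝ) ^ (1 / 10 : ℝ) * V1 w) := by gcongr
      _ ≤ x * (ε * C * V1 w) := by gcongr
      _ = _ := by ring
  have r3 : (1 - ε) * ((x : ℝ) * S) ≤ x * ((1 + 3 * ε) * (C * V1 w)) := by
    have : (x : ℝ) * E2 ≤ x * (ε * (C * V1 w)) := by gcongr
    linarith
  have r4 : (1 - ε) * S ≤ (1 + 3 * ε) * (C * V1 w) := by
    refine le_of_mul_le_mul_left (le_trans (le_of_eq ?_) r3) hx0
    ring
  have r5 : (1 + 3 * ε) ≤ (1 - ε) * (1 + η) := by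
    have e1 : (1 - ε) * (1 + η) = 1 + 9 / 10 * η - η * η / 10 := by
      rw [hε]
      ring
    have e2 : η * η ≤ 1 * η := by gcongr
    rw [e1, hε]
    linarith
  have r6 : 0 ≤ (C : ℝ) * V1 w := by positivity
  have r7 : 0 < 1 - ε := by
    rw [hε]
    linarith
  have r8 : (1 - ε) * S ≤ (1 - ε) * ((1 + η) * C * V1 w) := by
    refine r4.trans ?_
    calc (1 + 3 * ε) * (C * V1 w) ≤ ((1 - ε) * (1 + η)) * (C * V1 w) := by gcongr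
      _ = _ := by ring
  exact le_of_mul_le_mul_left r8 r7

theorem av : S_AV := by
  intro E η hη
  obtain ⟨x0, h⟩ := av_core E (min η 1) (lt_min hη one_pos) (min_le_right _ _)
  refine ⟨x0, fun N hN A Jw hA1 hA2 hw => (h N hN A Jw hA1 hA2 hw).trans ?_⟩
  have : min η 1 ≤ η := min_le_left _ _
  have h0 : (0 : ℝ) ≤ A := Nat.cast_nonneg _
  nlinarith

end Run7.h136.BP
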