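import Pool.Agent.Run7.h757.BP.Stm
import Pool.Agent.N792.FlP
import Pool.Agent.N792.Mtm

/-!
# The pointwise upper bound sieve (piece BP-UP)
-/

set_option autoImplicit false

namespace Run7.h136.BP

open Finset Filter Topology Run7.h757.BP
open Pool.Agent.N792

theorem rho_one' (a : ℤ) : rho 1 0 a 1 = 1 := by
  unfold rho
  simp

theorem up : S_UP := by
  classical
  obtain ⟨C1, hC1, H⟩ := fl_poly 1 one_pos 0
  obtain ⟨D, hD⟩ : ∃ D : ℕ, D = 10 * C1 ^ 2 := ⟨_, rfl⟩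
  have hD10 : 10 ≤ D := by
    have := Nat.one_le_pow 2 C1 (by omega)
    omega
  have hDr : (10 : ℝ) ≤ D := by exact_mod_cast hD10
  have hD0 : (0 : ℝ) < D := by linarith
  refine ⟨2 * C1 + 3, by
    have : (0 : ℝ) ≤ C1 := Nat.cast_nonneg _
    linarith, 1 / (2 * D), by positivity, ?_, 2 ^ D, ?_⟩
  · rw [div_le_div_iff₀ (by positivity) (by norm_num)]
    linarith
  intro N hN
  have hN1 : 1 ≤ N := le_trans Nat.one_le_two_pow hN
  have hNr : (1 : ℝ) ≤ N := by exact_mod_cast hN1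
  have hN0 : (0 : ℝ) < N := by linarith
  -- the largest admissible `J`
  let Q : ℕ → Prop := fun J => (2 ^ 2 ^ J) ^ D ≤ N
  obtain ⟨J, hJ⟩ : ∃ J, J = Nat.findGreatest Q N := ⟨_, rfl⟩
  have hQ0 : Q 0 := by
    change (2 ^ 2 ^ 0) ^ D ≤ N
    simpa using hN
  have hQJ : (2 ^ 2 ^ J) ^ D ≤ N := by
    rw [hJ]
    exact Nat.findGreatest_spec (P := Q) (Nat.zero_le N) hQ0
  have hlt : ∀ J : ℕ, J < (2 ^ 2 ^ J) ^ D := by
    intro J
    have h1 : J < 2 ^ J := Nat.lt_two_pow_self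
    have h2 : 2 ^ J < 2 ^ 2 ^ J := Nat.lt_two_pow_self
    have h3 : 2 ^ 2 ^ J ≤ (2 ^ 2 ^ J) ^ D := Nat.le_self_pow (by omega) _
    omega
  have hnQ : N < (2 ^ 2 ^ (J + 1)) ^ D := by
    by_contra hcon
    push Not at hcon
    have h1 : J + 1 ≤ N := by
      have := hlt (J + 1)
      omega
    have h2 := Nat.le_findGreatest (P := Q) h1 hcon
    omega
  obtain ⟨z, hz⟩ : ∃ z : ℕ, z = 2 ^ 2 ^ J := ⟨_, rfl⟩
  have hz1 : 1 ≤ z := by rw [hz]; exact Nat.one_le_two_pow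
  have hz1r : (1 : ℝ) ≤ z := by exact_mod_cast hz1
  have hzD : (z : ℝ) ^ D ≤ N := by
    rw [← hz] at hQJ
    exact_mod_cast hQJ
  have hz2D : (N : ℝ) ≤ (z : ℝ) ^ (2 * D) := by
    have h1 : (2 ^ 2 ^ (J + 1)) ^ D = z ^ (2 * D) := by
      rw [hz, pow_succ, pow_mul, pow_mul]
    rw [h1] at hnQ
    exact_mod_cast hnQ.le
  have hzN : (z : ℝ) ≤ (N : ℝ) ^ (1 / (D : ℝ)) := by
    have h1 : ((z : ℝ) ^ D) ^ (1 / (D : ℝ)) = z := by
      rw [← Real.rpow_natCast, ← Real.rpow_mul (by linarith), mul_one_div_cancel hD0.ne',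
        Real.rpow_one]
    rw [← h1]
    exact Real.rpow_le_rpow (by positivity) hzD (by positivity)
  refine ⟨J, ?_, ?_, ?_⟩
  · rw [← hz]
    have h1 : ((z : ℝ) ^ (2 * D)) ^ (1 / (2 * (D : ℝ))) = z := by
      rw [← Real.rpow_natCast, ← Real.rpow_mul (by linarith)]
      push_cast
      rw [mul_one_div_cancel (by positivity), Real.rpow_one]
    calc (N : ℝ) ^ (1 / (2 * (D : ℝ))) ≤ ((z : ℝ) ^ (2 * D)) ^ (1 / (2 * (D : ℝ))) :=
          Real.rpow_le_rpow hN0.le hz2D (by positivity)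
      _ = z := h1
  · rw [← hz]
    refine hzN.trans (Real.rpow_le_rpow_of_exponent_le hNr ?_)
    exact one_div_le_one_div_of_le (by norm_num) hDr
  · intro a
    rw [← hz]
    have h := H C1 le_rfl J 1 0 N (a : ℤ) le_rfl
      ⟨one_ne_zero, fun p hp hp1 => absurd (Nat.dvd_one.1 hp1) hp.one_lt.ne'⟩ (by omega)
    rw [rho_one', ← hz] at h
    simp only [Nat.cast_one, Nat.cast_zero, sub_zero, one_dvd, true_and, div_one, one_mul] at h
    have hV := Mtm.Vc_bd 1 0 (a : ℤ) z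
    have h2 : (1 / 2 : ℝ) ^ C1 ≤ 1 := pow_le_one₀ (by norm_num) (by norm_num)
    have h3 : (1 / 2 : ℝ) ^ C1 * ((N : ℝ) * Vc 1 0 (a : ℤ) z) ≤ 1 * ((N : ℝ) * Vc 1 0 (a : ℤ) z) :=
      mul_le_mul_of_nonneg_right h2 (mul_nonneg hN0.le hV.1)
    have h4 := (abs_le.1 h).2
    -- the error term
    have hzc : ((2 : ℝ) ^ 2 ^ J) = (z : ℝ) := by rw [hz]; push_cast; rfl
    rw [hzc] at h4
    have hJz : (J : ℝ) + 2 ≤ 2 * z := by
      have h5 : J < 2 ^ J := Nat.lt_two_pow_self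
      have h6 : 2 ^ J < z := by rw [hz]; exact Nat.lt_two_pow_self
      have h7 : J + 2 ≤ 2 * z := by omega
      exact_mod_cast h7
    have herr : (C1 : ℝ) * (J + 2) * (z : ℝ) ^ (C1 * C1) ≤ 2 * C1 * (N : ℝ) ^ (3 / 4 : ℝ) := by
      have h5 : (C1 : ℝ) * (J + 2) * (z : ℝ) ^ (C1 * C1) ≤ C1 * (2 * z) * (z : ℝ) ^ (C1 * C1) := by
        gcongr
      have h6 : (z : ℝ) ^ (C1 * C1 + 1) ≤ (N : ℝ) ^ (3 / 4 : ℝ) := by
        calc (z : ℝ) ^ (C1 * C1 + 1) ≤ ((N : ℝ) ^ (1 / (D : ℝ))) ^ (C1 * C1 + 1) := by gcongr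
          _ = (N : ℝ) ^ (1 / (D : ℝ) * ((C1 * C1 + 1 : ℕ) : ℝ)) := by
              rw [← Real.rpow_natCast, ← Real.rpow_mul hN0.le]
          _ ≤ (N : ℝ) ^ (3 / 4 : ℝ) := by
              refine Real.rpow_le_rpow_of_exponent_le hNr ?_
              rw [one_div, inv_mul_le_iff₀ hD0, hD]
              push_cast
              have : (1 : ℝ) ≤ C1 := by exact_mod_cast hC1
              nlinarith
      calc (C1 : ℝ) * (J + 2) * (z : ℝ) ^ (C1 * C1) ≤ C1 * (2 * z) * (z : ℝ) ^ (C1 * C1) := h5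
        _ = 2 * C1 * (z : ℝ) ^ (C1 * C1 + 1) := by ring
        _ ≤ _ := by gcongr
    have hz34 : (z : ℝ) ≤ (N : ℝ) ^ (3 / 4 : ℝ) := by
      refine hzN.trans (Real.rpow_le_rpow_of_exponent_le hNr ?_)
      rw [div_le_div_iff₀ hD0 (by norm_num)]
      linarith
    -- the count
    have hcount : (P a N : ℝ) ≤ z +
        (#((Ioc 0 N).filter (fun n : ℕ => Rough z (fv 1 0 (a : ℤ) n).natAbs)) : ℝ) := by
      have h5 : P a N ≤ #(Icc 1 z) +
          #((Ioc 0 N).filter (fun n : ℕ => Rough z (fv 1 0 (a : ℤ) n).natAbs)) := by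
        unfold P
        refine le_trans (card_le_card ?_) (card_union_le _ _)
        intro n hn
        rw [mem_filter, mem_Icc] at hn
        obtain ⟨⟨hn1, hn2⟩, hp⟩ := hn
        rw [mem_union, mem_Icc, mem_filter, mem_Ioc]
        by_cases hnz : n ≤ z
        · exact Or.inl ⟨hn1, hnz⟩
        · right
          have e1 : fv 1 0 (a : ℤ) n = (n : ℤ) ^ 2 + a := by
            unfold fv
            ring
          refine ⟨⟨by omega, hn2⟩, ?_⟩
          rw [e1]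
          refine ⟨hp.ne_zero, fun q hq hqd => ?_⟩
          have h6 : q = ((n : ℤ) ^ 2 + a).natAbs := (Nat.prime_dvd_prime_iff_eq hq hp).1 hqd
          have h7 : ((n : ℤ) ^ 2 + a).natAbs = n ^ 2 + a := by
            have : ((n : ℤ) ^ 2 + a) = ((n ^ 2 + a : ℕ) : ℤ) := by push_cast; rfl
            rw [this, Int.natAbs_natCast]
          rw [h6, h7]
          have h8 : n ≤ n ^ 2 := Nat.le_self_pow (by norm_num) n
          omega
      rw [Nat.card_Icc] at h5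
      have h6 : z + 1 - 1 = z := by omega
      rw [h6] at h5
      exact_mod_cast h5
    have hN34 : 0 ≤ (N : ℝ) ^ (3 / 4 : ℝ) := by positivity
    have hNV : 0 ≤ (N : ℝ) * Vc 1 0 (a : ℤ) z := mul_nonneg hN0.le hV.1
    have hC0 : (0 : ℝ) ≤ C1 := Nat.cast_nonneg _
    have e2 : (2 * (C1 : ℝ) + 3) * N * Vc 1 0 (a : ℤ) z =
        2 * C1 * ((N : ℝ) * Vc 1 0 (a : ℤ) z) + 3 * ((N : ℝ) * Vc 1 0 (a : ℤ) z) := by ring
    rw [e2]
    have h9 : 0 ≤ 2 * (C1 : ℝ) * ((N : ℝ) * Vc 1 0 (a : ℤ) z) := by positivity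
    linarith

end Run7.h136.BP
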